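import Pool.Agent.KS6_42.SQA.Ex

/-!
# The squeezed complexes are balls
-/

set_option autoImplicit false

namespace Pool.Agent.KS6_42.SQA

open Finset Pool.Agent.Helper221.SQ Pool.Agent.Helper175.NS

/-- the complexes obtained from a simplex by subdividing the edges `{a, m + 2}` -/
def LL' (m : ℕ) (W : Finset ℕ) (a : ℕ) : Finset (Finset ℕ) :=
  (Ico 1 a).image (fun i => insert i (insert (i + 1) W)) ∪ {insert a (insert (m + 2) W)}

theorem mem_LL' {m : ℕ} {W : Finset ℕ} {a : ℕ} {G : Finset ℕ} : G ∈ LL' m W a ↔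
    (∃ i, 1 ≤ i ∧ i < a ∧ G = insert i (insert (i + 1) W)) ∨ G = insert a (insert (m + 2) W) := by
  rw [LL', mem_union, mem_image, mem_singleton]
  constructor
  · rintro (⟨i, hi, rfl⟩ | rfl)
    · rw [mem_Ico] at hi
      exact Or.inl ⟨i, hi.1, hi.2, rfl⟩
    · exact Or.inr rfl
  · rintro (⟨i, h1, h2, rfl⟩ | rfl)
    · exact Or.inl ⟨i, mem_Ico.2 ⟨h1, h2⟩, rfl⟩
    · exact Or.inr rfl

section

variable {m : ℕ} {W : Finset ℕ} (hW : ∀ x ∈ W, m + 3 ≤ x)

include hW in
theorem star_LL' {a : ℕ} (ha1 : 1 ≤ a) (ha : a < m) :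
    star (LL' m W a) {a, m + 2} (a + 1) = LL' m W (a + 1) := by
  have hWn : ∀ x, x < m + 3 → x ∉ W := fun x hx h => by
    have := hW x h
    omega
  have e1 : (insert a (insert (m + 2) W)).erase a = insert (m + 2) W := by
    rw [erase_insert]
    rw [mem_insert]
    rintro (h | h)
    · omega
    · exact hWn a (by omega) h
  have e2 : (insert a (insert (m + 2) W)).erase (m + 2) = insert a W := by
    rw [erase_insert_of_ne (by omega), erase_insert (hWn _ (by omega))]
  ext G
  rw [mem_star, mem_LL' (a := a + 1)]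
  constructor
  · rintro (⟨h1, h2⟩ | ⟨F, hF, hsub, z, hz, rfl⟩)
    · rcases mem_LL'.1 h1 with ⟨i, h3, h4, rfl⟩ | rfl
      · exact Or.inl ⟨i, h3, by omega, rfl⟩
      · exfalso
        refine h2 ?_
        intro x hx
        rw [mem_insert, mem_singleton] at hx
        rw [mem_insert, mem_insert]
        rcases hx with rfl | rfl
        · exact Or.inl rfl
        · exact Or.inr (Or.inl rfl)
    · have hF' : F = insert a (insert (m + 2) W) := by
        rcases mem_LL'.1 hF with ⟨i, h3, h4, rfl⟩ | h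
        · exfalso
          have h5 : m + 2 ∈ insert i (insert (i + 1) W) :=
            hsub (mem_insert_of_mem (mem_singleton_self _))
          rw [mem_insert, mem_insert] at h5
          rcases h5 with h5 | h5 | h5
          · omega
          · omega
          · exact hWn _ (by omega) h5
        · exact h
      rw [hF']
      rw [mem_insert, mem_singleton] at hz
      rcases hz with rfl | rfl
      · rw [e1]
        exact Or.inr rfl
      · rw [e2, Finset.insert_comm]
        exact Or.inl ⟨a, ha1, by omega, rfl⟩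
  · rintro (⟨i, h3, h4, rfl⟩ | rfl)
    · rcases Nat.lt_or_ge i a with h5 | h5
      · refine Or.inl ⟨mem_LL'.2 (Or.inl ⟨i, h3, h5, rfl⟩), fun hsub => ?_⟩
        have h6 : m + 2 ∈ insert i (insert (i + 1) W) :=
          hsub (mem_insert_of_mem (mem_singleton_self _))
        rw [mem_insert, mem_insert] at h6
        rcases h6 with h6 | h6 | h6
        · omega
        · omega
        · exact hWn _ (by omega) h6
      · have h6 : i = a := by omega
        subst h6
        refine Or.inr ⟨_, mem_LL'.2 (Or.inr rfl), ?_, m + 2, by simp, ?_⟩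
        · intro x hx
          rw [mem_insert, mem_singleton] at hx
          rw [mem_insert, mem_insert]
          rcases hx with rfl | rfl
          · exact Or.inl rfl
          · exact Or.inr (Or.inl rfl)
        · rw [e2, Finset.insert_comm]
    · refine Or.inr ⟨_, mem_LL'.2 (Or.inr rfl), ?_, a, by simp, ?_⟩
      · intro x hx
        rw [mem_insert, mem_singleton] at hx
        rw [mem_insert, mem_insert]
        rcases hx with rfl | rfl
        · exact Or.inl rfl
        · exact Or.inr (Or.inl rfl)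
      · rw [e1]

include hW in
theorem chain_homeo' {a : ℕ} (h1 : 1 ≤ a) (ha : a ≤ m) :
    Nonempty (Sp (LL' m W a) ≃ₜ Sp (LL' m W 1)) := by
  induction a, h1 using Nat.le_induction with
  | base => exact ⟨Homeomorph.refl _⟩
  | succ a h1 ih =>
    obtain ⟨e1⟩ := ih (by omega)
    obtain ⟨e2⟩ := star_homeo (LL' m W a) {a, m + 2} (a + 1) ⟨a, by simp⟩ (by
      intro F hF h
      have hWn : ∀ x, x < m + 3 → x ∉ W := fun x hx h => by
        have := hW x h
        omega
      rcases mem_LL'.1 hF with ⟨i, h3, h4, rfl⟩ | rfl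
      · rw [mem_insert, mem_insert] at h
        rcases h with h | h | h
        · omega
        · omega
        · exact hWn _ (by omega) h
      · rw [mem_insert, mem_insert] at h
        rcases h with h | h | h
        · omega
        · omega
        · exact hWn _ (by omega) h) (by
      rw [mem_insert, mem_singleton]
      omega)
    rw [star_LL' hW h1 (by omega)] at e2
    exact ⟨e2.trans e1⟩

end

section

variable {m d l : ℕ} (hm : 1 ≤ m)

/-- the large face of the last subdivision -/
def AA (m d l : ℕ) : Finset ℕ := (range (d + 1)).image (fun s => om m l s)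

theorem mem_AA {x : ℕ} : x ∈ AA m d l ↔ ∃ s, s ≤ d ∧ om m l s = x := by
  rw [AA, mem_image]
  simp only [mem_range, Nat.lt_succ_iff]

theorem om_ne' (h2 : 1 ≤ l) {s : ℕ} : om m l s ≠ m + 1 :=
  om_ne (m := m) (l := l) (s := s) (j := 0) (by omega)

theorem last_star (h2 : 1 ≤ l) (hld : l < d) :
    star (LL' m (Icc (m + 3) (m + l + d)) m) (AA m d l) (m + 1) = (Ex m d hm).facets l := by
  have hFs : ∀ x, x ∈ insert m (insert (m + 2) (Icc (m + 3) (m + l + d))) ↔
      x ≠ m + 1 ∧ m ≤ x ∧ x ≤ m + l + d := by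
    intro x
    rw [mem_insert, mem_insert, mem_Icc]
    omega
  have hA : AA m d l ⊆ insert m (insert (m + 2) (Icc (m + 3) (m + l + d))) := by
    intro x hx
    obtain ⟨s, hs, rfl⟩ := mem_AA.1 hx
    exact (hFs _).2 ⟨om_ne' h2, mem_Icc.1 (om_mem hs hld)⟩
  have eqF : ∀ z, z ∈ AA m d l →
      insert (m + 1) ((insert m (insert (m + 2) (Icc (m + 3) (m + l + d)))).erase z) =
        (Icc m (m + l + d)).erase z := by
    intro z hz
    have hz1 := (hFs z).1 (hA hz)
    ext x
    rw [mem_insert, mem_erase, mem_erase, mem_Icc, hFs]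
    omega
  have hm2 : m + 2 ∈ AA m d l := mem_AA.2 ⟨1, by omega, by rw [om, min_eq_left h2]⟩
  have hno : ∀ i, i < m → ¬ AA m d l ⊆ insert i (insert (i + 1) (Icc (m + 3) (m + l + d))) := by
    intro i hi hsub
    have h3 := hsub hm2
    rw [mem_insert, mem_insert, mem_Icc] at h3
    omega
  have hset : ∀ i : ℕ, (insert i (insert (i + 1) (Icc (m + 3) (m + l + d))) : Finset ℕ) =
      {i, i + 1} ∪ Icc (m + 3) (m + l + d) := by
    intro i
    ext x
    rw [mem_insert, mem_insert, mem_union, mem_insert, mem_singleton, or_assoc]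
  ext G
  rw [mem_star, mem_facets' hm h2 hld]
  constructor
  · rintro (⟨h3, h4⟩ | ⟨F, hF, hsub, z, hz, rfl⟩)
    · rcases mem_LL'.1 h3 with ⟨i, h5, h6, rfl⟩ | rfl
      · exact Or.inl ⟨i, h5, by omega, hset i⟩
      · exact absurd hA h4
    · rcases mem_LL'.1 hF with ⟨i, h5, h6, rfl⟩ | rfl
      · exact absurd hsub (hno i h6)
      · obtain ⟨s, hs, rfl⟩ := mem_AA.1 hz
        exact Or.inr ⟨s, hs, eqF _ hz⟩
  · have hback : ∀ s, s ≤ d → ((Icc m (m + l + d)).erase (om m l s) ∈
        LL' m (Icc (m + 3) (m + l + d)) m ∧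
        ¬ AA m d l ⊆ (Icc m (m + l + d)).erase (om m l s)) ∨
      ∃ F ∈ LL' m (Icc (m + 3) (m + l + d)) m, AA m d l ⊆ F ∧ ∃ z ∈ AA m d l,
        insert (m + 1) (F.erase z) = (Icc m (m + l + d)).erase (om m l s) := by
      intro s hs
      exact Or.inr ⟨_, mem_LL'.2 (Or.inr rfl), hA, _, mem_AA.2 ⟨s, hs, rfl⟩,
        eqF _ (mem_AA.2 ⟨s, hs, rfl⟩)⟩
    rintro (⟨i, h5, h6, rfl⟩ | ⟨s, hs, rfl⟩)
    · rcases Nat.lt_or_ge i m with h7 | h7
      · left
        rw [← hset]
        exact ⟨mem_LL'.2 (Or.inl ⟨i, h5, h7, rfl⟩), hno i h7⟩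
      · have h8 : i = m := by omega
        subst h8
        rw [facet_m h2 hld]
        exact hback 1 (by omega)
    · exact hback s hs

/-- **The squeezed complexes of the ideals `{1, x_1, …, x_m, x_m^2, …, x_m^d}` are balls.** -/
theorem isBall' (h2 : 1 ≤ l) (hld : l < d) :
    IsBall ((Ex m d hm).facets l) ((Ex m d hm).dmax + l - 1) := by
  rw [Ex_dmax hm (by omega)]
  have hW : ∀ x ∈ Icc (m + 3) (m + l + d), m + 3 ≤ x := fun x hx => (mem_Icc.1 hx).1
  obtain ⟨e1⟩ := star_homeo (LL' m (Icc (m + 3) (m + l + d)) m) (AA m d l) (m + 1)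
    ⟨_, mem_AA.2 ⟨0, by omega, rfl⟩⟩ (by
      intro F hF h
      rcases mem_LL'.1 hF with ⟨i, h3, h4, rfl⟩ | rfl
      · rw [mem_insert, mem_insert, mem_Icc] at h
        omega
      · rw [mem_insert, mem_insert, mem_Icc] at h
        omega) (by
      intro h
      obtain ⟨s, hs, h3⟩ := mem_AA.1 h
      exact om_ne' h2 h3)
  rw [last_star hm h2 hld] at e1
  obtain ⟨e2⟩ := chain_homeo' hW hm (le_refl m)
  have h1 : LL' m (Icc (m + 3) (m + l + d)) 1 =
      {insert 1 (insert (m + 2) (Icc (m + 3) (m + l + d)))} := by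
    rw [LL']
    simp
  have hcard : (insert 1 (insert (m + 2) (Icc (m + 3) (m + l + d)))).card = (d + l - 1) + 1 := by
    rw [card_insert_of_notMem, card_insert_of_notMem, Nat.card_Icc]
    · omega
    · rw [mem_Icc]; omega
    · rw [mem_insert, mem_Icc]; omega
  obtain ⟨e3⟩ := Pool.Agent.H933R3.simplex_ball _ (d + l - 1) hcard
  rw [← h1] at e3
  have h3 : realization ((Ex m d hm).facets l) = Sp ((Ex m d hm).facets l) := rfl
  exact ⟨(Homeomorph.setCongr h3).trans ((e1.trans e2).trans e3)⟩

end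

end Pool.Agent.KS6_42.SQA
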