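import Pool.Graph.R_pool_sql_team_seeded_620a6dc7.Helper221.SQ.Kal

/-!
# Faces of Kalai squeezed spheres

Let `Δ = Δ_t(I)`, `t ≥ d_max(I)`, `T = t + d_max(I)`. The sphere `∂Δ` contains all sets `Y ∪ {v}` with
`Y ⊆ {m + 3, …, m + T}`, `|Y| < l`, for every `l` with `2 l + 1 ≤ T` and every vertex `v`.
-/

set_option autoImplicit false

namespace Pool.Agent.KS6_42.SQA

open Finset Pool.Agent.Helper221.SQ

theorem idx_mem' {u : Multiset ℕ} {k : ℕ} (hk : k < Multiset.card u) : idx u k ∈ u := by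
  rw [idx, List.getD_eq_getElem _ _ (by rw [Multiset.length_sort]; exact hk)]
  rw [← Multiset.mem_sort (r := (· ≤ ·))]
  exact List.getElem_mem _

theorem idx_mono {u : Multiset ℕ} {k l : ℕ} (hkl : k ≤ l) (hl : l < Multiset.card u) :
    idx u k ≤ idx u l := by
  rcases Nat.eq_or_lt_of_le hkl with rfl | h
  · exact le_refl _
  have hs := Multiset.pairwise_sort u (· ≤ ·)
  rw [idx, idx, List.getD_eq_getElem _ _ (by rw [Multiset.length_sort]; omega),
    List.getD_eq_getElem _ _ (by rw [Multiset.length_sort]; exact hl)]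
  exact List.pairwise_iff_getElem.1 hs k l _ _ h

theorem mem_FF {m d t : ℕ} {u : Multiset ℕ} (hs : Multiset.card u ≤ t) {x : ℕ} :
    x ∈ FF m d t u ↔ (∃ k, k < Multiset.card u ∧ (x = idx u k + 2 * k ∨ x = idx u k + 2 * k + 1)) ∨
      (m + 2 * Multiset.card u + 1 ≤ x ∧ x ≤ m + t + d) := by
  rw [FF, if_pos hs]
  simp only [mem_union, mem_biUnion, mem_range, mem_insert, mem_singleton, mem_Icc]

variable {m : ℕ} (I : ShiftedIdeal m) {t : ℕ}

/-- ridges of the top facet -/
theorem top_ridge (ht : I.dmax ≤ t) {j : ℕ} (hj : 2 * j + 1 ≤ t + I.dmax) {σ : Finset ℕ}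
    (hσ : σ ⊆ (Icc (m + 1) (m + t + I.dmax)).erase (m + 2 * j + 1)) : σ ∈ bdry (I.facets t) := by
  refine ⟨_, top_mem I, m + 2 * j + 1, mem_Icc.2 ⟨by omega, by omega⟩, ?_, hσ⟩
  intro G hG hsub
  obtain ⟨u, hu, rfl⟩ := (mem_facets I).1 hG
  rcases Nat.eq_zero_or_pos (Multiset.card u) with h | h
  · rw [Multiset.card_eq_zero.1 h, FF0]
  exfalso
  have hle := card_le_dmax I hu
  have hmem := fun x => mem_FF (m := m) (d := I.dmax) (hle.trans ht) (x := x)
  have hcard := FF_card_le (m := m) ht hle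
  obtain ⟨h1, h2⟩ := I.vars u hu _ (idx_mem' h)
  have hG0 : idx u 0 ∈ FF m I.dmax t u := (hmem _).2 (Or.inl ⟨0, h, Or.inl (by simp)⟩)
  have hG1 : idx u 0 + 1 ∈ FF m I.dmax t u := (hmem _).2 (Or.inl ⟨0, h, Or.inr (by simp)⟩)
  have hz : m + 2 * j + 1 ∉ FF m I.dmax t u := by
    intro hz
    have h3 : insert (idx u 0) (Icc (m + 1) (m + t + I.dmax)) ⊆ FF m I.dmax t u := by
      refine insert_subset hG0 fun x hx => ?_
      by_cases hxz : x = m + 2 * j + 1
      · rw [hxz]; exact hz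
      · exact hsub (mem_erase.2 ⟨hxz, hx⟩)
    have h4 := card_le_card h3
    rw [card_insert_of_notMem (by rw [mem_Icc]; omega), Nat.card_Icc] at h4
    omega
  have h0 : idx u 0 = m := by
    by_contra hne
    have h3 : insert (idx u 0) (insert (idx u 0 + 1)
        ((Icc (m + 1) (m + t + I.dmax)).erase (m + 2 * j + 1))) ⊆ FF m I.dmax t u :=
      insert_subset hG0 (insert_subset hG1 hsub)
    have h4 := card_le_card h3
    rw [card_insert_of_notMem, card_insert_of_notMem, card_erase_of_mem, Nat.card_Icc] at h4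
    · omega
    · rw [mem_Icc]; omega
    · rw [mem_erase, mem_Icc]; omega
    · rw [mem_insert, mem_erase, mem_Icc]; omega
  rcases Nat.lt_or_ge j (Multiset.card u) with hs | hs
  · have h5 := idx_mono (Nat.zero_le j) hs
    have h6 := (I.vars u hu _ (idx_mem' hs)).2
    exact hz ((hmem _).2 (Or.inl ⟨j, hs, Or.inr (by omega)⟩))
  · exact hz ((hmem _).2 (Or.inr ⟨by omega, by omega⟩))

/-- the facet of a variable -/
theorem mem_var (ht : I.dmax ≤ t) {i : ℕ} (h1 : 1 ≤ i) (h2 : i ≤ m) :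
    ({i, i + 1} ∪ Icc (m + 3) (m + t + I.dmax) : Finset ℕ) ∈ I.facets t := by
  have hu := I.var_mem i h1 h2
  have h3 := card_le_dmax I hu
  rw [Multiset.card_singleton] at h3
  exact (mem_facets I).2 ⟨{i}, hu, FF1 _ _ _ _ (by omega)⟩

/-- ridges of the facet of a variable -/
theorem var_ridge' (ht : I.dmax ≤ t) {i : ℕ} (h1 : 1 ≤ i) (h2 : i ≤ m) {j : ℕ} (hj1 : 1 ≤ j)
    (hj : 2 * j + 1 ≤ t + I.dmax) {σ : Finset ℕ}
    (hσ : σ ⊆ ({i, i + 1} ∪ Icc (m + 3) (m + t + I.dmax)).erase (m + 2 * j + 1)) :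
    σ ∈ bdry (I.facets t) := by
  have hI : ∀ x, m + 3 ≤ x → x ≤ m + t + I.dmax → x ≠ m + 2 * j + 1 →
      x ∈ (({i, i + 1} ∪ Icc (m + 3) (m + t + I.dmax)).erase (m + 2 * j + 1) : Finset ℕ) := by
    intro x hx1 hx2 hx3
    rw [mem_erase, mem_union, mem_Icc]
    exact ⟨hx3, Or.inr ⟨hx1, hx2⟩⟩
  refine ⟨_, mem_var I ht h1 h2, m + 2 * j + 1, ?_, ?_, hσ⟩
  · rw [mem_union, mem_Icc]
    right
    omega
  intro G hG hsub
  obtain ⟨u, hu, rfl⟩ := (mem_facets I).1 hG
  have hle := card_le_dmax I hu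
  have hmem := fun x => mem_FF (m := m) (d := I.dmax) (hle.trans ht) (x := x)
  have hcard := FF_card_le (m := m) ht hle
  have hi : i ∈ FF m I.dmax t u := hsub (mem_erase.2 ⟨by omega, by simp⟩)
  have hi1 : i + 1 ∈ FF m I.dmax t u := hsub (mem_erase.2 ⟨by omega, by simp⟩)
  have hc3 : Multiset.card u = 0 ∨ Multiset.card u = 1 ∨ 2 ≤ Multiset.card u := by omega
  rcases hc3 with h | h | h
  · exfalso
    rw [Multiset.card_eq_zero.1 h, FF0, mem_Icc] at hi
    omega
  · obtain ⟨i', rfl⟩ := Multiset.card_eq_one.1 h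
    rw [Multiset.card_singleton] at hle
    rw [FF1 _ _ _ _ (by omega)] at hi hi1 ⊢
    rw [mem_union, mem_insert, mem_singleton, mem_Icc] at hi hi1
    have : i' = i := by omega
    rw [this]
  exfalso
  obtain ⟨a1, a2⟩ := I.vars u hu _ (idx_mem' (k := 0) (by omega))
  obtain ⟨b1, b2⟩ := I.vars u hu _ (idx_mem' (k := 1) (by omega))
  have hab := idx_mono (k := 0) (l := 1) (u := u) (by omega) (by omega)
  have hG0 : idx u 0 ∈ FF m I.dmax t u := (hmem _).2 (Or.inl ⟨0, by omega, Or.inl (by simp)⟩)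
  have hG1 : idx u 0 + 1 ∈ FF m I.dmax t u := (hmem _).2 (Or.inl ⟨0, by omega, Or.inr (by simp)⟩)
  have hG2 : idx u 1 + 2 ∈ FF m I.dmax t u := (hmem _).2 (Or.inl ⟨1, by omega, Or.inl (by simp)⟩)
  have hG3 : idx u 1 + 3 ∈ FF m I.dmax t u := (hmem _).2 (Or.inl ⟨1, by omega, Or.inr (by simp)⟩)
  have hz : m + 2 * j + 1 ∉ FF m I.dmax t u := by
    intro hz
    have h3 : insert (idx u 0) (insert (idx u 0 + 1) (insert (idx u 1 + 2)
        (Icc (m + 3) (m + t + I.dmax)))) ⊆ FF m I.dmax t u := by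
      refine insert_subset hG0 (insert_subset hG1 (insert_subset hG2 fun x hx => ?_))
      rw [mem_Icc] at hx
      by_cases hxz : x = m + 2 * j + 1
      · rw [hxz]; exact hz
      · exact hsub (hI x hx.1 hx.2 hxz)
    have h4 := card_le_card h3
    rw [card_insert_of_notMem, card_insert_of_notMem, card_insert_of_notMem, Nat.card_Icc] at h4
    · omega
    · rw [mem_Icc]; omega
    · rw [mem_insert, mem_Icc]; omega
    · rw [mem_insert, mem_insert, mem_Icc]; omega
  have hb : idx u 1 = m := by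
    by_contra hne
    have h3 : insert (idx u 0) (insert (idx u 0 + 1) (insert (idx u 1 + 2) (insert (idx u 1 + 3)
        ((Icc (m + 3) (m + t + I.dmax)).erase (m + 2 * j + 1))))) ⊆ FF m I.dmax t u := by
      refine insert_subset hG0 (insert_subset hG1 (insert_subset hG2 (insert_subset hG3
        fun x hx => ?_)))
      rw [mem_erase, mem_Icc] at hx
      exact hsub (hI x hx.2.1 hx.2.2 hx.1)
    have h4 := card_le_card h3
    rw [card_insert_of_notMem, card_insert_of_notMem, card_insert_of_notMem,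
      card_insert_of_notMem, card_erase_of_mem, Nat.card_Icc] at h4
    · omega
    · rw [mem_Icc]; omega
    · rw [mem_erase, mem_Icc]; omega
    · rw [mem_insert, mem_erase, mem_Icc]; omega
    · rw [mem_insert, mem_insert, mem_erase, mem_Icc]; omega
    · rw [mem_insert, mem_insert, mem_insert, mem_erase, mem_Icc]; omega
  rcases Nat.lt_or_ge j (Multiset.card u) with hs | hs
  · have h5 := idx_mono hj1 hs
    have h6 := (I.vars u hu _ (idx_mem' hs)).2
    exact hz ((hmem _).2 (Or.inl ⟨j, hs, Or.inr (by omega)⟩))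
  · exact hz ((hmem _).2 (Or.inr ⟨by omega, by omega⟩))

/-- faces of the squeezed sphere -/
theorem cand_face (ht : I.dmax ≤ t) {l : ℕ} (hl : 2 * l + 1 ≤ t + I.dmax) {Y : Finset ℕ}
    (hY : Y ⊆ Icc (m + 3) (m + t + I.dmax)) (hYc : Y.card < l) {v : ℕ} (hv1 : 1 ≤ v)
    (hv2 : v ≤ m + t + I.dmax) : insert v Y ∈ bdry (I.facets t) := by
  rcases Nat.lt_or_ge m v with hv | hv
  · -- the top facet
    have h1 : (insert v Y).card < ((range (l + 1)).image (fun j => m + 2 * j + 1)).card := by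
      rw [card_image_of_injective _ (fun a b h => by simpa using h), card_range]
      exact (card_insert_le _ _).trans_lt (by omega)
    obtain ⟨z, hz1, hz2⟩ := exists_mem_notMem_of_card_lt_card h1
    obtain ⟨j, hj, rfl⟩ := mem_image.1 hz1
    rw [mem_range] at hj
    refine top_ridge I ht (j := j) (by omega) ?_
    intro x hx
    refine mem_erase.2 ⟨fun h => hz2 (h ▸ hx), ?_⟩
    rcases mem_insert.1 hx with rfl | hx
    · exact mem_Icc.2 ⟨by omega, hv2⟩
    · have := mem_Icc.1 (hY hx)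
      exact mem_Icc.2 ⟨by omega, this.2⟩
  · -- the facet of a variable
    have h1 : Y.card < ((Icc 1 l).image (fun j => m + 2 * j + 1)).card := by
      rw [card_image_of_injective _ (fun a b h => by simpa using h), Nat.card_Icc]
      omega
    obtain ⟨z, hz1, hz2⟩ := exists_mem_notMem_of_card_lt_card h1
    obtain ⟨j, hj, rfl⟩ := mem_image.1 hz1
    rw [mem_Icc] at hj
    refine var_ridge' I ht hv1 hv hj.1 (by omega) ?_
    intro x hx
    refine mem_erase.2 ⟨?_, ?_⟩
    · rintro rfl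
      rcases mem_insert.1 hx with h | h
      · omega
      · exact hz2 h
    · rcases mem_insert.1 hx with rfl | hx
      · simp
      · exact mem_union_right _ (hY hx)

/-- the vertices of the squeezed sphere -/
theorem cand_vertex (ht : I.dmax ≤ t) {σ : Finset ℕ} (hσ : σ ∈ bdry (I.facets t)) {v : ℕ}
    (hv : v ∈ σ) : 1 ≤ v ∧ v ≤ m + t + I.dmax := by
  obtain ⟨F, hF, w, hw, -, hsub⟩ := hσ
  have h1 := mem_of_mem_erase (hsub hv)
  obtain ⟨u, hu, rfl⟩ := (mem_facets I).1 hF
  have hle := card_le_dmax I hu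
  rw [mem_FF (hle.trans ht)] at h1
  rcases h1 with ⟨k, hk, h⟩ | h
  · have h2 := I.vars u hu _ (idx_mem' hk)
    omega
  · omega

end Pool.Agent.KS6_42.SQA
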