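import Pool.Agent.KS6_42.SQA.Cand

/-!
# The ideals `{1, x_1, …, x_m, x_m^2, …, x_m^d}` and their squeezed complexes
-/

set_option autoImplicit false

namespace Pool.Agent.KS6_42.SQA

open Finset Pool.Agent.Helper221.SQ Pool.Agent.Helper175.NS

/-- the monomials `1, x_1, …, x_m, x_m^2, …, x_m^d` -/
def UU (m d : ℕ) : Finset (Multiset ℕ) :=
  (Icc 1 m).image (fun i => {i}) ∪ (range (d + 1)).image (fun k => Multiset.replicate k m)

theorem mem_UU {m d : ℕ} {u : Multiset ℕ} : u ∈ UU m d ↔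
    (∃ i, 1 ≤ i ∧ i ≤ m ∧ u = {i}) ∨ ∃ k, k ≤ d ∧ u = Multiset.replicate k m := by
  rw [UU, mem_union, mem_image, mem_image]
  constructor
  · rintro (⟨i, hi, rfl⟩ | ⟨k, hk, rfl⟩)
    · rw [mem_Icc] at hi
      exact Or.inl ⟨i, hi.1, hi.2, rfl⟩
    · rw [mem_range] at hk
      exact Or.inr ⟨k, by omega, rfl⟩
  · rintro (⟨i, h1, h2, rfl⟩ | ⟨k, hk, rfl⟩)
    · exact Or.inl ⟨i, mem_Icc.2 ⟨h1, h2⟩, rfl⟩
    · exact Or.inr ⟨k, mem_range.2 (by omega), rfl⟩

/-- The shifted order ideal `{1, x_1, …, x_m, x_m^2, …, x_m^d}`. -/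
def Ex (m d : ℕ) (hm : 1 ≤ m) : ShiftedIdeal m where
  U := UU m d
  vars := by
    intro u hu i hi
    rcases mem_UU.1 hu with ⟨i', h1, h2, rfl⟩ | ⟨k, hk, rfl⟩
    · rw [Multiset.mem_singleton] at hi
      rw [hi]
      exact ⟨h1, h2⟩
    · rw [Multiset.eq_of_mem_replicate hi]
      exact ⟨hm, le_refl _⟩
  one_mem := mem_UU.2 (Or.inr ⟨0, by omega, by simp⟩)
  var_mem := fun i h1 h2 => mem_UU.2 (Or.inl ⟨i, h1, h2, rfl⟩)
  div := by
    intro u hu v hv
    rcases mem_UU.1 hu with ⟨i', h1, h2, rfl⟩ | ⟨k, hk, rfl⟩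
    · rcases Multiset.le_singleton.1 hv with rfl | rfl
      · exact mem_UU.2 (Or.inr ⟨0, by omega, by simp⟩)
      · exact hu
    · obtain ⟨j, hj, rfl⟩ := Multiset.le_replicate_iff.1 hv
      exact mem_UU.2 (Or.inr ⟨j, hj.trans hk, rfl⟩)
  shift := by
    intro u i j h hij hj
    rcases mem_UU.1 h with ⟨i', h1, h2, h3⟩ | ⟨k, hk, h3⟩
    · obtain ⟨rfl, rfl⟩ := (Multiset.singleton_eq_cons_iff u).1 h3.symm
      exact mem_UU.2 (Or.inl ⟨j, by omega, hj, rfl⟩)
    · exfalso
      have h4 : i ∈ Multiset.replicate k m := by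
        rw [← h3]
        exact Multiset.mem_cons_self i u
      have := Multiset.eq_of_mem_replicate h4
      omega

section

variable {m d : ℕ} (hm : 1 ≤ m)

theorem Ex_dmax (hd : 1 ≤ d) : (Ex m d hm).dmax = d := by
  apply le_antisymm
  · refine Finset.sup_le fun u hu => ?_
    rcases mem_UU.1 hu with ⟨i, -, -, rfl⟩ | ⟨k, hk, rfl⟩
    · rw [Multiset.card_singleton]
      exact hd
    · rw [Multiset.card_replicate]
      exact hk
  · have h := le_sup (f := Multiset.card) (mem_UU.2 (Or.inr ⟨d, le_refl d, rfl⟩) :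
      Multiset.replicate d m ∈ UU m d)
    rw [Multiset.card_replicate] at h
    exact h

theorem idx_rep {s k : ℕ} (hk : k < s) : idx (Multiset.replicate s m) k = m :=
  Multiset.eq_of_mem_replicate (idx_mem' (by rw [Multiset.card_replicate]; exact hk))

/-- the vertex of `{m, …, m + l + d}` that is missing in `F_l(x_m ^ s)` -/
def om (m l s : ℕ) : ℕ := m + s + min s l

/-- the facet of `x_m ^ s` -/
theorem FF_rep {l s : ℕ} (hs : s ≤ d) (hld : l < d) :
    FF m d l (Multiset.replicate s m) = (Icc m (m + l + d)).erase (om m l s) := by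
  ext x
  rw [mem_erase, mem_Icc, om]
  rw [FF]
  simp only [Multiset.card_replicate]
  split_ifs with h
  · rw [min_eq_left h]
    simp only [mem_union, mem_biUnion, mem_range, mem_insert, mem_singleton, mem_Icc]
    constructor
    · rintro (⟨k, hk, h1⟩ | h1)
      · rw [idx_rep hk] at h1
        omega
      · omega
    · rintro ⟨h1, h2, h3⟩
      rcases Nat.lt_or_ge x (m + s + s) with h4 | h4
      · left
        refine ⟨(x - m) / 2, by omega, ?_⟩
        rw [idx_rep (by omega)]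
        omega
      · right
        omega
  · rw [min_eq_right (by omega)]
    simp only [mem_union, mem_biUnion, mem_range, mem_insert, mem_singleton, mem_Icc, mem_image,
      mem_Ico]
    constructor
    · rintro ((⟨k, hk, h1⟩ | ⟨k, hk, h1⟩) | h1)
      · rw [idx_rep (by omega)] at h1
        omega
      · rw [idx_rep (by omega)] at h1
        omega
      · omega
    · rintro ⟨h1, h2, h3⟩
      rcases Nat.lt_or_ge x (m + l + l) with h4 | h4
      · left; left
        refine ⟨(x - m) / 2, by omega, ?_⟩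
        rw [idx_rep (by omega)]
        omega
      · rcases Nat.lt_or_ge x (m + s + l) with h5 | h5
        · left; right
          refine ⟨x - m - l, by omega, ?_⟩
          rw [idx_rep (by omega)]
          omega
        · right
          omega

variable {l : ℕ}

/-- the facets of the squeezed complex -/
theorem mem_facets' (h2 : 1 ≤ l) (hld : l < d) {G : Finset ℕ} : G ∈ (Ex m d hm).facets l ↔
    (∃ i, 1 ≤ i ∧ i ≤ m ∧ G = {i, i + 1} ∪ Icc (m + 3) (m + l + d)) ∨
      ∃ s, s ≤ d ∧ G = (Icc m (m + l + d)).erase (om m l s) := by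
  rw [mem_facets, Ex_dmax hm (by omega)]
  constructor
  · rintro ⟨u, hu, rfl⟩
    rcases mem_UU.1 hu with ⟨i, h1, h2, rfl⟩ | ⟨k, hk, rfl⟩
    · exact Or.inl ⟨i, h1, h2, FF1 _ _ _ _ (by omega)⟩
    · exact Or.inr ⟨k, hk, FF_rep hk hld⟩
  · rintro (⟨i, h1, h2, rfl⟩ | ⟨k, hk, rfl⟩)
    · exact ⟨{i}, mem_UU.2 (Or.inl ⟨i, h1, h2, rfl⟩), FF1 _ _ _ _ (by omega)⟩
    · exact ⟨_, mem_UU.2 (Or.inr ⟨k, hk, rfl⟩), FF_rep hk hld⟩

theorem facet_m (h2 : 1 ≤ l) (_ : l < d) :
    ({m, m + 1} ∪ Icc (m + 3) (m + l + d) : Finset ℕ) = (Icc m (m + l + d)).erase (om m l 1) := by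
  ext x
  rw [om, min_eq_left h2, mem_erase, mem_Icc, mem_union, mem_insert, mem_singleton, mem_Icc]
  omega

theorem V_cases (hld : l < d) {x : ℕ} (h1 : m ≤ x) (h2 : x ≤ m + l + d) :
    (∃ s, s ≤ d ∧ x = om m l s) ∨ ∃ j, j < l ∧ x = m + 2 * j + 1 := by
  rcases Nat.lt_or_ge (m + 2 * l) x with h | h
  · refine Or.inl ⟨x - m - l, by omega, ?_⟩
    rw [om, min_eq_right (by omega)]
    omega
  · rcases Nat.even_or_odd (x - m) with ⟨k, hk⟩ | ⟨k, hk⟩
    · refine Or.inl ⟨k, by omega, ?_⟩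
      rw [om, min_eq_left (by omega)]
      omega
    · exact Or.inr ⟨k, by omega, by omega⟩

theorem om_ne {s j : ℕ} (hj : j < l) : om m l s ≠ m + 2 * j + 1 := by
  rw [om]
  rcases Nat.lt_or_ge l s with h | h
  · rw [min_eq_right (by omega)]
    omega
  · rw [min_eq_left h]
    omega

theorem om_mem {s : ℕ} (hs : s ≤ d) (_ : l < d) : om m l s ∈ Icc m (m + l + d) := by
  rw [mem_Icc, om]
  have := min_le_right s l
  omega

/-- the missing face -/
def BB (m l : ℕ) : Finset ℕ := (range l).image (fun j => m + 2 * j + 1)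

theorem mem_BB {x : ℕ} : x ∈ BB m l ↔ ∃ j, j < l ∧ m + 2 * j + 1 = x := by
  rw [BB, mem_image]
  simp only [mem_range]

theorem BB_not (h2 : 1 ≤ l) (hld : l < d) : BB m l ∉ bdry ((Ex m d hm).facets l) := by
  rintro ⟨F, hF, v, hv, huniq, hsub⟩
  have hF' : ∃ s, s ≤ d ∧ F = (Icc m (m + l + d)).erase (om m l s) := by
    rcases (mem_facets' hm h2 hld).1 hF with ⟨i, h3, h4, rfl⟩ | h
    · have h5 : m + 1 ∈ BB m l := mem_BB.2 ⟨0, by omega, by omega⟩
      have h6 := mem_of_mem_erase (hsub h5)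
      rw [mem_union, mem_insert, mem_singleton, mem_Icc] at h6
      have h7 : i = m := by omega
      rw [h7]
      exact ⟨1, by omega, facet_m h2 hld⟩
    · exact h
  obtain ⟨s, hs, rfl⟩ := hF'
  have hv' := mem_Icc.1 (mem_of_mem_erase hv)
  have hvB : v ∉ BB m l := fun h => (notMem_erase v _) (hsub h)
  rcases V_cases hld hv'.1 hv'.2 with ⟨s', hs', h⟩ | ⟨j, hj, h⟩
  · have hG : (Icc m (m + l + d)).erase v ∈ (Ex m d hm).facets l := by
      rw [h]
      exact (mem_facets' hm h2 hld).2 (Or.inr ⟨s', hs', rfl⟩)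
    have h3 := huniq _ hG (by
      intro x hx
      rw [mem_erase, mem_erase] at hx
      exact mem_erase.2 ⟨hx.1, hx.2.2⟩)
    rw [← h3] at hv
    exact notMem_erase v _ hv
  · exact hvB (mem_BB.2 ⟨j, hj, h.symm⟩)

/-- boundary ridges -/
theorem ridge (h2 : 2 ≤ l) (hld : l < d) {i : ℕ} (h3 : 1 ≤ i) (h4 : i ≤ m) {σ : Finset ℕ}
    (hσ : σ ⊆ {i, i + 1} ∪ Icc (m + 4) (m + l + d)) : σ ∈ bdry ((Ex m d hm).facets l) := by
  refine ⟨_, (mem_facets' hm (by omega) hld).2 (Or.inl ⟨i, h3, h4, rfl⟩), m + 3, ?_, ?_, ?_⟩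
  · rw [mem_union, mem_Icc]
    right
    omega
  · intro G hG hsub
    have hi : i ∈ G := hsub (mem_erase.2 ⟨by omega, by simp⟩)
    have hi1 : i + 1 ∈ G := hsub (mem_erase.2 ⟨by omega, by simp⟩)
    rcases (mem_facets' hm (by omega) hld).1 hG with ⟨i', h5, h6, rfl⟩ | ⟨s, hs, rfl⟩
    · rw [mem_union, mem_insert, mem_singleton, mem_Icc] at hi hi1
      have : i' = i := by omega
      rw [this]
    · have h5 := (mem_Icc.1 (mem_of_mem_erase hi)).1
      have h6 : i = m := by omega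
      subst h6
      have h7 := mem_Icc.1 (om_mem (m := i) hs hld)
      have h8 : om i l s ≠ i + 2 * 1 + 1 := om_ne (m := i) (l := l) (s := s) (j := 1) (by omega)
      have h9 : om i l s = i + 2 := by
        by_contra hne
        have h10 : om i l s ∈ (({i, i + 1} ∪ Icc (i + 3) (i + l + d)).erase (i + 3) : Finset ℕ) := by
          rw [mem_erase, mem_union, mem_insert, mem_singleton, mem_Icc]
          omega
        exact notMem_erase _ _ (hsub h10)
      rw [facet_m (by omega) hld, h9, om, min_eq_left (by omega)]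
  · intro x hx
    have h5 := hσ hx
    rw [mem_union, mem_insert, mem_singleton, mem_Icc] at h5
    rw [mem_erase, mem_union, mem_insert, mem_singleton, mem_Icc]
    omega

theorem face_card (h2 : 1 ≤ l) (hld : l < d) {σ : Finset ℕ}
    (hσ : σ ∈ bdry ((Ex m d hm).facets l)) : σ.card ≤ l + d - 1 := by
  obtain ⟨F, hF, v, hv, -, hsub⟩ := hσ
  have h3 := card_le_card hsub
  rw [card_erase_of_mem hv] at h3
  have h4 : F.card ≤ l + d := by
    rcases (mem_facets' hm h2 hld).1 hF with ⟨i, -, -, rfl⟩ | ⟨s, hs, rfl⟩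
    · refine (card_union_le _ _).trans ?_
      have := card_le_two (a := i) (b := i + 1)
      rw [Nat.card_Icc]
      omega
    · rw [card_erase_of_mem (om_mem hs hld), Nat.card_Icc]
      omega
  omega

theorem face_vertex (h2 : 1 ≤ l) (hld : l < d) {σ : Finset ℕ}
    (hσ : σ ∈ bdry ((Ex m d hm).facets l)) {v : ℕ} (hv : v ∈ σ) : 1 ≤ v ∧ v ≤ m + l + d := by
  obtain ⟨F, hF, w, hw, -, hsub⟩ := hσ
  have h3 := mem_of_mem_erase (hsub hv)
  rcases (mem_facets' hm h2 hld).1 hF with ⟨i, h4, h5, rfl⟩ | ⟨s, hs, rfl⟩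
  · rw [mem_union, mem_insert, mem_singleton, mem_Icc] at h3
    omega
  · have := mem_Icc.1 (mem_of_mem_erase h3)
    omega

/-- the vertices that are joined to all other vertices -/
theorem univ_vertex' (hm3 : 3 ≤ m) (h2 : 2 ≤ l) (hld : l < d) {y : ℕ}
    (hy : {y} ∈ bdry ((Ex m d hm).facets l))
    (h : ∀ z, {z} ∈ bdry ((Ex m d hm).facets l) → {z, y} ∈ bdry ((Ex m d hm).facets l)) :
    y ∈ Icc (m + 3) (m + l + d) := by
  have hy' := face_vertex hm (by omega) hld hy (mem_singleton_self y)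
  rw [mem_Icc]
  refine ⟨?_, hy'.2⟩
  by_contra hcon
  have hvert : ∀ z, 1 ≤ z → z ≤ m + 1 → {z} ∈ bdry ((Ex m d hm).facets l) := by
    intro z h3 h4
    rcases Nat.lt_or_ge m z with h5 | h5
    · refine ridge hm h2 hld (i := m) hm (le_refl _) ?_
      intro x hx
      rw [mem_singleton] at hx
      rw [mem_union, mem_insert, mem_singleton]
      omega
    · refine ridge hm h2 hld (i := z) h3 h5 ?_
      intro x hx
      rw [mem_singleton] at hx
      rw [mem_union, mem_insert, mem_singleton]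
      omega
  have hpair : ∀ z, {z, y} ∈ bdry ((Ex m d hm).facets l) →
      (∃ i, 1 ≤ i ∧ i ≤ m ∧ (z = i ∨ z = i + 1 ∨ m + 3 ≤ z) ∧ (y = i ∨ y = i + 1)) ∨
        (m ≤ z ∧ m ≤ y) := by
    rintro z ⟨F, hF, w, hw, -, hsub⟩
    have h3 := mem_of_mem_erase (hsub (mem_insert_self z _))
    have h4 := mem_of_mem_erase (hsub (mem_insert_of_mem (mem_singleton_self y)))
    rcases (mem_facets' hm (by omega) hld).1 hF with ⟨i, h5, h6, rfl⟩ | ⟨s, hs, rfl⟩
    · rw [mem_union, mem_insert, mem_singleton, mem_Icc] at h3 h4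
      exact Or.inl ⟨i, h5, h6, by omega, by omega⟩
    · have h5 := mem_Icc.1 (mem_of_mem_erase h3)
      have h6 := mem_Icc.1 (mem_of_mem_erase h4)
      exact Or.inr ⟨h5.1, h6.1⟩
  have hc : y = 1 ∨ y = 2 ∨ 3 ≤ y := by omega
  rcases hc with h3 | h3 | h3
  · rcases hpair 3 (h 3 (hvert 3 (by omega) (by omega))) with ⟨i, h4, h5, h6, h7⟩ | h4 <;> omega
  · rcases hpair 4 (h 4 (hvert 4 (by omega) (by omega))) with ⟨i, h4, h5, h6, h7⟩ | h4 <;> omega
  · rcases hpair 1 (h 1 (hvert 1 (by omega) (by omega))) with ⟨i, h4, h5, h6, h7⟩ | h4 <;> omega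

/-- **The boundary is not a Kalai squeezed sphere.** -/
theorem not_squeezed' (hm3 : 3 ≤ m) (h2 : 2 ≤ l) (hld : l < d) :
    ¬ IsSqueezedSphere (bdry ((Ex m d hm).facets l)) := by
  rintro ⟨m', I, t, ht, f, hf, hB⟩
  have hmemB : ∀ τ, τ ∈ bdry ((Ex m d hm).facets l) ↔
      ∃ σ ∈ bdry (I.facets t), σ.image f = τ := by
    intro τ
    rw [hB]
    rfl
  -- the dimension
  have hT1 : l + d ≤ t + I.dmax := by
    have h3 := ridge hm h2 hld (i := 1) (le_refl _) hm (Subset.refl _)
    obtain ⟨σ, ⟨F, hF, v, hv, -, hσ⟩, h5⟩ := (hmemB _).1 h3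
    have h6 : l + d - 1 ≤ σ.card := by
      have h7 : (σ.image f).card ≤ σ.card := card_image_le
      rw [h5, card_union_of_disjoint, Nat.card_Icc, card_insert_of_notMem, card_singleton] at h7
      · omega
      · simp
      · rw [disjoint_left]
        intro x hx
        rw [mem_insert, mem_singleton] at hx
        rw [mem_Icc]
        omega
    have h7 := (card_le_card hσ).trans (le_of_eq (card_erase_of_mem hv))
    obtain ⟨u, hu, rfl⟩ := (mem_facets I).1 hF
    have h8 := FF_card_le (m := m') ht (card_le_dmax I hu)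
    omega
  have hT2 : t + I.dmax ≤ l + d := by
    have h3 : (Icc (m' + 1) (m' + t + I.dmax)).erase (m' + 2 * 0 + 1) ∈ bdry (I.facets t) :=
      top_ridge I ht (j := 0) (by omega) (Subset.refl _)
    have h4 := (hmemB _).2 ⟨_, h3, rfl⟩
    have h5 := face_card hm (by omega) hld h4
    have h6 : (((Icc (m' + 1) (m' + t + I.dmax)).erase (m' + 2 * 0 + 1) : Finset ℕ) : Set ℕ) ⊆
        {v | ∃ σ ∈ bdry (I.facets t), v ∈ σ} := fun v hv => ⟨_, h3, mem_coe.1 hv⟩
    rw [card_image_of_injOn (hf.mono h6), card_erase_of_mem, Nat.card_Icc] at h5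
    · omega
    · rw [mem_Icc]; omega
  have hT : t + I.dmax = l + d := le_antisymm hT2 hT1
  have hTl : 2 * l + 1 ≤ t + I.dmax := by omega
  have hvert : ∀ v, 1 ≤ v → v ≤ m' + t + I.dmax → v ∈ {v | ∃ σ ∈ bdry (I.facets t), v ∈ σ} :=
    fun v h1 h3 => ⟨_, cand_face I ht hTl (empty_subset _) (by simpa using (by omega : 0 < l)) h1 h3,
      mem_insert_self _ _⟩
  -- all the vertices in question
  have key : ∀ w ∈ Icc (m' + 3) (m' + t + I.dmax), f w ∈ Icc (m + 3) (m + l + d) := by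
    intro w hw
    have hw' := mem_Icc.1 hw
    refine univ_vertex' hm hm3 h2 hld ?_ ?_
    · rw [hmemB]
      refine ⟨insert w ∅, cand_face I ht hTl (empty_subset _)
        (by simpa using (by omega : 0 < l)) (by omega) hw'.2, ?_⟩
      simp
    · intro z hz
      obtain ⟨σ, hσ, h3⟩ := (hmemB _).1 hz
      have h4 : z ∈ σ.image f := by rw [h3]; exact mem_singleton_self z
      obtain ⟨v, hvσ, rfl⟩ := mem_image.1 h4
      have hr := cand_vertex I ht hσ hvσ
      rw [hmemB]
      refine ⟨insert v {w}, cand_face I ht hTl (singleton_subset_iff.2 hw)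
        (by rw [card_singleton]; omega) hr.1 hr.2, ?_⟩
      rw [image_insert, image_singleton]
  have hinj : Set.InjOn f (Icc (m' + 3) (m' + t + I.dmax) : Finset ℕ) := by
    refine hf.mono ?_
    intro w hw
    have hw' := mem_Icc.1 (mem_coe.1 hw)
    exact hvert w (by omega) hw'.2
  have himg : (Icc (m' + 3) (m' + t + I.dmax)).image f = Icc (m + 3) (m + l + d) := by
    apply eq_of_subset_of_card_le
    · intro y hy
      obtain ⟨w, hw, rfl⟩ := mem_image.1 hy
      exact key w hw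
    · rw [card_image_of_injOn hinj, Nat.card_Icc, Nat.card_Icc]
      omega
  -- the missing face
  let Y : Finset ℕ := (Icc (m' + 3) (m' + t + I.dmax)).filter (fun w => f w ∈ (BB m l).erase (m + 1))
  have hYimg : Y.image f = (BB m l).erase (m + 1) := by
    ext y
    rw [mem_image]
    constructor
    · rintro ⟨w, hw, rfl⟩
      exact (mem_filter.1 hw).2
    · intro hy
      have h3 : y ∈ Icc (m + 3) (m + l + d) := by
        rw [mem_erase, mem_BB] at hy
        obtain ⟨h3, j, hj, h4⟩ := hy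
        rw [mem_Icc]
        omega
      rw [← himg] at h3
      obtain ⟨w, hw, rfl⟩ := mem_image.1 h3
      exact ⟨w, mem_filter.2 ⟨hw, hy⟩, rfl⟩
  have hYc : Y.card < l := by
    have h3 : (Y.image f).card = Y.card :=
      card_image_of_injOn (hinj.mono (by
        intro w hw
        exact mem_coe.2 (mem_filter.1 (mem_coe.1 hw)).1))
    rw [← h3, hYimg, card_erase_of_mem (mem_BB.2 ⟨0, by omega, by omega⟩)]
    have h4 : (BB m l).card ≤ l := by
      refine card_image_le.trans ?_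
      rw [card_range]
    omega
  have hv1 : {m + 1} ∈ bdry ((Ex m d hm).facets l) := by
    refine ridge hm h2 hld (i := m) hm (le_refl _) ?_
    intro x hx
    rw [mem_singleton] at hx
    rw [mem_union, mem_insert, mem_singleton]
    omega
  obtain ⟨σ, hσ, h3⟩ := (hmemB _).1 hv1
  have h4 : m + 1 ∈ σ.image f := by rw [h3]; exact mem_singleton_self _
  obtain ⟨v, hvσ, h5⟩ := mem_image.1 h4
  have hr := cand_vertex I ht hσ hvσ
  have h6 := cand_face I ht hTl (filter_subset _ _ : Y ⊆ _) hYc hr.1 hr.2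
  have h7 : BB m l ∈ bdry ((Ex m d hm).facets l) := by
    rw [hmemB]
    refine ⟨_, h6, ?_⟩
    rw [image_insert, hYimg, h5, insert_erase (mem_BB.2 ⟨0, by omega, by omega⟩)]
  exact BB_not hm (by omega) hld h7

end

end Pool.Agent.KS6_42.SQA
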